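import Pool.Agent.H815.QC.Stm2

/-!
# QC-E2: the presentation of the right-angled Artin group
-/

set_option autoImplicit false

namespace Pool.Agent.H407.QCE2

open Pool.Agent.Y110.FJ Pool.Agent.T2H65.GP Pool.Agent.H815.QC

theorem E2_proof : S_E2 := by
  intro m Λ
  -- the homomorphism to the graph product
  have hrel : ∀ r ∈ relA Λ, FreeGroup.lift (fun a : Fin m => GrP.of Λ (B2 (Fin m)) a
      (Multiplicative.ofAdd (1 : ℤ))) r = 1 := by
    rintro r ⟨a, b, hab, rfl⟩
    rw [map_mul, map_mul, map_mul, map_inv, map_inv, FreeGroup.lift_apply_of,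
      FreeGroup.lift_apply_of, of_comm hab]
    group
  obtain ⟨f, hf⟩ : ∃ f : PresentedGroup (relA Λ) →* P2 Λ, ∀ a : Fin m,
      f (PresentedGroup.of a) = GrP.of Λ (B2 (Fin m)) a (Multiplicative.ofAdd (1 : ℤ)) :=
    ⟨PresentedGroup.toGroup hrel, fun a => PresentedGroup.toGroup.of hrel⟩
  -- the homomorphism from the graph product
  have hcomm : ∀ a b : Fin m, Λ.Adj a b →
      Commute (PresentedGroup.of a : PresentedGroup (relA Λ)) (PresentedGroup.of b) := by
    intro a b hab
    have h1 : (PresentedGroup.mk (relA Λ)) (FreeGroup.of a * FreeGroup.of b *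
        (FreeGroup.of a)⁻¹ * (FreeGroup.of b)⁻¹) = 1 :=
      PresentedGroup.one_of_mem ⟨a, b, hab, rfl⟩
    rw [map_mul, map_mul, map_mul, map_inv, map_inv] at h1
    have h2 : (PresentedGroup.of a : PresentedGroup (relA Λ)) * PresentedGroup.of b *
        (PresentedGroup.of a)⁻¹ * (PresentedGroup.of b)⁻¹ = 1 := h1
    rw [mul_inv_eq_one, mul_inv_eq_iff_eq_mul] at h2
    exact h2
  obtain ⟨g, hg⟩ : ∃ g : P2 Λ →* PresentedGroup (relA Λ), ∀ (v : Fin m) (k : Multiplicative ℤ),
      g (GrP.of Λ (B2 (Fin m)) v k) = PresentedGroup.of v ^ (Multiplicative.toAdd k) := by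
    refine ⟨glift (fun v => zpowersHom _ (PresentedGroup.of v : PresentedGroup (relA Λ))) ?_,
      fun v k => ?_⟩
    · intro v w hvw a b
      rw [zpowersHom_apply, zpowersHom_apply]
      exact ((hcomm v w hvw).zpow_zpow _ _).eq
    · rw [glift_of, zpowersHom_apply]
  have h1 : g.comp f = MonoidHom.id _ := by
    apply PresentedGroup.ext
    intro a
    rw [MonoidHom.comp_apply, hf, hg, MonoidHom.id_apply]
    exact zpow_one _
  have h2 : f.comp g = MonoidHom.id _ := by
    apply ghom_ext
    intro v k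
    rw [MonoidHom.comp_apply, hg, map_zpow, hf, MonoidHom.id_apply, ← map_zpow]
    congr 1
    apply Multiplicative.toAdd.injective
    rw [toAdd_zpow]
    exact mul_one (Multiplicative.toAdd k)
  exact ⟨MonoidHom.toMulEquiv f g h1 h2⟩

end Pool.Agent.H407.QCE2
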